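import Pool.Agent.W602.RG.Stm3
import Pool.Agent.W602.GT.SpThm

/-!
# RG-CVW: a component which is not of general type is covered by lines
-/

set_option autoImplicit false

open FF MvPolynomial Pool.Agent.W603.LV
open Pool.Agent.W602.GT (lin val IsForm VarPts SubVar IsComponent GeneralType Cone tn Line)

namespace Pool.Agent.W605.RG.CVW

theorem direction {k : Type} [Field k] {n : ℕ} {ι : Type}
    {F : ι → MvPolynomial (Fin (n + 1)) k} {a b : Fin (n + 1) → k} (hab : Line F a b) (c c' : k)
    (x : Fin (n + 1) → k) (hx : x = c • a + c' • b) {i0 : Fin (n + 1)} (hi0 : x i0 ≠ 0) :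
    ∃ u : Fin (n + 1) → k, (∃ j j', u j * x j' ≠ u j' * x j) ∧
      ∀ (t : k) (e : ι), val (fun j => x j + t * u j) (F e) = 0 := by
  have hli := LinearIndependent.pair_iff.1 hab.1
  by_cases h : ∀ j j', a j * x j' = a j' * x j
  · refine ⟨b, ?_, ?_⟩
    · by_contra hcon
      push Not at hcon
      obtain ⟨h1, h2⟩ := hli (b i0) (-(a i0)) (by
        funext j
        have e1 := h j i0
        have e2 := hcon j i0
        simp only [Pi.add_apply, Pi.smul_apply, smul_eq_mul, Pi.zero_apply]
        apply mul_right_cancel₀ hi0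
        rw [zero_mul]
        linear_combination b i0 * e1 - a i0 * e2)
      apply hi0
      rw [hx]
      have h3 : a i0 = 0 := neg_eq_zero.1 h2
      simp [h1, h3]
    · intro t e
      have h1 := hab.2 c (c' + t) e
      have h2 : (fun j => x j + t * b j) = c • a + (c' + t) • b := by
        funext j
        rw [hx]
        simp only [Pi.add_apply, Pi.smul_apply, smul_eq_mul]
        ring
      rw [h2]
      exact h1
  · push Not at h
    refine ⟨a, h, ?_⟩
    intro t e
    have h1 := hab.2 (c + t) c' e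
    have h2 : (fun j => x j + t * a j) = (c + t) • a + c' • b := by
      funext j
      rw [hx]
      simp only [Pi.add_apply, Pi.smul_apply, smul_eq_mul]
      ring
    rw [h2]
    exact h1

theorem main : Pool.Agent.W602.RG.S_CVW := by
  intro k _ _ _ n ι F s N hF hN1 hN K _ _ w y hw hy hcomp hgt G hG hGy
  classical
  have hgen : Algebra.IsAlgebraic (Pool.Agent.W602.GT.coords k y) K := by
    rw [hy.gen]
    infer_instance
  obtain ⟨v, hv, hl⟩ := Pool.Agent.W602.GT.waring hF hN1 hN hw hy.dim hy.ne hgen hy.mem hgt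
  obtain ⟨H0, hH0f, hH0y, hH0⟩ := hcomp
  obtain ⟨i0, hi0⟩ := Function.ne_iff.1 hy.ne
  have hne : val y (G * H0 * X i0) ≠ 0 := by
    unfold val at hGy hH0y ⊢
    rw [map_mul, map_mul, aeval_X]
    exact mul_ne_zero (mul_ne_zero hGy hH0y) hi0
  obtain ⟨a, b, hab, c, c', hcc⟩ : ∃ a b, Line F a b ∧ ∃ c c' : k,
      val (c • a + c' • b) (G * H0 * X i0) ≠ 0 := by
    by_contra hcon
    push Not at hcon
    exact hne (Pool.Agent.W602.GT.mem_closure y v hv hl hcon)
  obtain ⟨x, hx⟩ : ∃ x, x = c • a + c' • b := ⟨_, rfl⟩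
  rw [← hx] at hcc
  have hsplit : val x (G * H0 * X i0) = val x G * val x H0 * x i0 := by
    unfold val
    rw [map_mul, map_mul, aeval_X]
  rw [hsplit] at hcc
  have hxi0 : x i0 ≠ 0 := right_ne_zero_of_mul hcc
  have hxG : val x G ≠ 0 := left_ne_zero_of_mul (left_ne_zero_of_mul hcc)
  have hxH0 : val x H0 ≠ 0 := right_ne_zero_of_mul (left_ne_zero_of_mul hcc)
  have hx0 : x ≠ 0 := by
    intro h0
    apply hxi0
    rw [h0]
    rfl
  have hxC : x ∈ Cone F := ⟨hx0, fun i => by rw [hx]; exact hab.2 c c' i⟩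
  have hxV : x ∈ VarPts k y := hH0 x hxC hxH0
  refine ⟨x, hxV, hxG, ?_⟩
  obtain ⟨u, hu1, hu2⟩ := direction hab c c' x hx hxi0
  refine ⟨u, hu1, ?_⟩
  intro a' H hHf hHy
  let P : Fin (n + 1) → Polynomial k := fun j =>
    Polynomial.C (x j) + Polynomial.X * Polynomial.C (u j)
  have hP : ∀ t : k, (fun j => (P j).eval t) = fun j => x j + t * u j := by
    intro t
    funext j
    simp only [P, Polynomial.eval_add, Polynomial.eval_mul, Polynomial.eval_C, Polynomial.eval_X]
  obtain ⟨QH, hQH, -⟩ := Pool.Agent.W602.GT.val_poly P H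
  obtain ⟨Q0, hQ0, -⟩ := Pool.Agent.W602.GT.val_poly P (H0 * X i0)
  have hQ0' : ∀ t : k, Q0.eval t = val (fun j => x j + t * u j) H0 * (x i0 + t * u i0) := by
    intro t
    rw [hQ0 t, hP t]
    unfold val
    rw [map_mul, aeval_X]
  have hprod : QH * Q0 = 0 := by
    apply Pool.Agent.W602.GT.poly_zero
    intro t _
    rw [Polynomial.eval_mul, hQH t, hP t, hQ0' t]
    by_cases h1 : val (fun j => x j + t * u j) H0 = 0
    · rw [h1, zero_mul, mul_zero]
    by_cases h2 : x i0 + t * u i0 = 0
    · rw [h2, mul_zero, mul_zero]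
    have h3 : (fun j => x j + t * u j) ∈ Cone F := by
      refine ⟨fun h0 => h2 ?_, fun e => hu2 t e⟩
      exact congrFun h0 i0
    have h4 := (hH0 _ h3 h1).2 H hHf hHy
    rw [h4, zero_mul]
  have hQ0ne : Q0 ≠ 0 := by
    intro h0
    have h1 := hQ0' 0
    rw [h0, Polynomial.eval_zero] at h1
    have h2 : (fun j => x j + 0 * u j) = x := by
      funext j
      ring
    rw [h2, zero_mul, add_zero] at h1
    exact mul_ne_zero hxH0 hxi0 h1.symm
  have hQHz : QH = 0 := (mul_eq_zero.1 hprod).resolve_right hQ0ne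
  have h1 := hQH a'
  rw [hQHz, Polynomial.eval_zero, hP a'] at h1
  exact h1.symm

end Pool.Agent.W605.RG.CVW
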